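import Mathlib
import Pool.Agent.Lib.PRX.SparseMain

set_option autoImplicit false

namespace Pool.Agent.Results.MP_af4c61_co.SparseBinary

open FirstOrder FirstOrder.Language

/-- Let `M` be an ultrahomogeneous structure in a finite relational language of arity at most 2 and let `Γ` be an
`Aut(M)`-invariant graph on the set of `n`-tuples of `M`. The following are equivalent:
`Γ` contains no `K_{b,b}` for some `b`; for some `b` any `b` distinct vertices have only finitely many common
neighbours; `Γ` is sparse (at most `k * |F|` edges inside each finite set `F` of vertices; ordered pairs are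
counted); for every edge `x y` the orbit of `y` under the stabilizer of `x` or the orbit of `x` under the stabilizer
of `y` is finite; there is an `Aut(M)`-invariant relation `D` which orients every edge in at least one direction and
for which at most `K` vertices can be reached from any vertex. -/
theorem result :
    ∀ (L : FirstOrder.Language.{0,0}) (_ : ∀ n, IsEmpty (L.Functions n)) (_ : Finite (Σ n, L.Relations n))
      (_ : ∀ n, 3 ≤ n → IsEmpty (L.Relations n)) (M : Type) (_ : L.Structure M), L.IsUltrahomogeneous M →
      ∀ (n : ℕ) (Γ : SimpleGraph (Fin n → M)),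
        (∀ (σ : M ≃[L] M) (x y : Fin n → M), Γ.Adj x y → Γ.Adj (fun i => σ (x i)) (fun i => σ (y i))) →
        List.TFAE [
          ∃ b : ℕ, ∀ u v : Fin b → (Fin n → M), Function.Injective u → Function.Injective v →
            ∃ i j, ¬ Γ.Adj (u i) (v j),
          ∃ b : ℕ, ∀ u : Fin b → (Fin n → M), Function.Injective u → {w | ∀ i, Γ.Adj w (u i)}.Finite,
          ∃ k : ℕ, ∀ F : Finset (Fin n → M),
            {p : (Fin n → M) × (Fin n → M) | p.1 ∈ F ∧ p.2 ∈ F ∧ Γ.Adj p.1 p.2}.ncard ≤ 2 * k * F.card,
          ∀ x y, Γ.Adj x y →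
            {z | ∃ σ : M ≃[L] M, (fun i => σ (x i)) = x ∧ (fun i => σ (y i)) = z}.Finite ∨
            {z | ∃ σ : M ≃[L] M, (fun i => σ (y i)) = y ∧ (fun i => σ (x i)) = z}.Finite,
          ∃ (K : ℕ) (D : (Fin n → M) → (Fin n → M) → Prop),
            (∀ (σ : M ≃[L] M) (x y : Fin n → M), D x y → D (fun i => σ (x i)) (fun i => σ (y i))) ∧
            (∀ x y, Γ.Adj x y → D x y ∨ D y x) ∧
            ∀ x, {y | Relation.ReflTransGen D x y}.Finite ∧
              {y | Relation.ReflTransGen D x y}.ncard ≤ K] := by
  intro L hL hfin h2 M _ hM n Γ hΓ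
  exact Pool.Agent.Lib.PRX.sparse_tuples hL hfin h2 hM n Γ hΓ

end Pool.Agent.Results.MP_af4c61_co.SparseBinary
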