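import Mathlib
import Pool.Agent.Lib.PRX.Colr

set_option autoImplicit false

namespace Pool.Agent.Results.MP_af4c61_co.VertexForm

open FirstOrder FirstOrder.Language
open Pool.Agent.Lib.PRX (Nice NiceCol AutC)

/-- `L` is a finite relational language in which all arities are at most `r`. -/
structure FinRel (r : ℕ) (L : FirstOrder.Language.{0,0}) : Prop where
  rel : ∀ n, IsEmpty (L.Functions n)
  fin : Finite (Σ n, L.Relations n)
  ar : ∀ n, ¬ n ≤ r → IsEmpty (L.Relations n)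

/-- `M` has a relational, ultrahomogeneous expansion whose age has the Ramsey property for embeddings and whose
automorphism group has finitely many orbits on `n`-tuples for each `n ∈ N`
(for `N = Set.univ` this is the conclusion of the frozen statement S10807). -/
def RamseyExp (N : Set ℕ) (L : FirstOrder.Language.{0,0}) (M : Type) [L.Structure M] : Prop :=
  ∃ (L' : FirstOrder.Language.{0,0}) (_ : ∀ n, IsEmpty (L'.Functions n)) (φ : L →ᴸ L')
    (_ : L'.Structure M),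
    φ.IsExpansionOn M ∧ L'.IsUltrahomogeneous M ∧
    (∀ n ∈ N, ∃ F : Finset (Fin n → M), ∀ x : Fin n → M,
      ∃ y ∈ F, ∃ σ : M ≃[L'] M, ∀ i, σ (y i) = x i) ∧
    (∀ (A B : L'.Substructure M), A.FG → B.FG → ∀ k : ℕ,
      ∃ C : L'.Substructure M, C.FG ∧ ∀ c : (A ↪[L'] C) → Fin k,
        ∃ g : B ↪[L'] C, ∃ i : Fin k, ∀ f : A ↪[L'] B, c (g.comp f) = i)

open Pool.Agent.Lib.PRX in
/-- the cover as a structure on the rational numbers -/
theorem deg_of_nice {r : ℕ} (hr : 2 ≤ r)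
    (h : ∀ L : FirstOrder.Language.{0,0}, FinRel r L → ∀ (_ : L.Structure ℚ), Nice L →
      ∃ d : ℕ, ∀ (k : ℕ) (c : ℚ → Fin k) (B : Finset ℚ),
        ∃ σ : ℚ ≃[L] ℚ, (B.image fun x => c (σ x)).card ≤ d)
    {L : FirstOrder.Language.{0,0}} (hL : FinRel r L) {M : Type} [L.Structure M] [Countable M]
    (hM : L.IsUltrahomogeneous M) {n : ℕ} (a : Fin n → M) :
    ∃ d, Deg (AutG L M) (MulAction.orbit (AutG L M) a) d := by
  let _ := strC L a
  obtain ⟨e, he⟩ := exists_rat (L := L) a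
  let _ : (LC L n).Structure ℚ := e.inducedStructure
  let E : CP L a ≃[LC L n] ℚ := e.inducedStructureEquiv
  have hE : ∀ p, E p = e p := fun _ => rfl
  have hE' : ∀ x, E (E.symm x) = x := fun x => E.apply_symm_apply x
  have hE'' : ∀ x, E.symm (E x) = x := fun x => E.symm_apply_apply x
  have hnice : Nice (LC L n) := by
    refine ⟨uh_transport E.symm (cov_uh hL.rel hM), ⟨Sum.inr ⟨none, rfl⟩, fun x y => ?_⟩, fun x y => ?_,
      fun F x hx => ?_⟩
    · change ps (e.symm x) < ps (e.symm y) ↔ x < y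
      rw [← he, e.apply_symm_apply, e.apply_symm_apply]
    · obtain ⟨τ, hτ⟩ := cov_trans hL.rel hM (E.symm x) (E.symm y)
      refine ⟨(E.comp τ).comp E.symm, ?_⟩
      change E (τ (E.symm x)) = y
      rw [hτ, hE']
    · classical
      have h1 := cov_noalg hL.rel hM (F.image E.symm) (E.symm x) (by
        intro h1
        rw [Finset.mem_image] at h1
        obtain ⟨z, hz, h1⟩ := h1
        rw [E.symm.injective h1] at hz
        exact hx hz)
      refine (h1.image (f := E) E.injective.injOn).mono ?_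
      rintro _ ⟨q, ⟨τ, h2, h3⟩, rfl⟩
      refine ⟨(E.comp τ).comp E.symm, fun z hz => ?_, ?_⟩
      · change E (τ (E.symm z)) = z
        rw [h2 _ (Finset.mem_image_of_mem _ hz), hE']
      · change E (τ (E.symm x)) = E q
        rw [h3]
  obtain ⟨d, hd⟩ := h (LC L n) ⟨LC_rel, LC_fin hL.fin, LC_ar (A := {n | n ≤ r}) hr hL.ar⟩ _ hnice
  refine ⟨d, cov_deg hL.rel hM fun k c B => ?_⟩
  classical
  obtain ⟨σ, hσ⟩ := hd k (fun x => c (E.symm x)) (B.image E)
  refine ⟨(E.symm.comp σ).comp E, le_trans (Finset.card_le_card ?_) hσ⟩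
  intro y hy
  rw [Finset.mem_image] at hy
  obtain ⟨x, hx, rfl⟩ := hy
  rw [Finset.mem_image]
  exact ⟨E x, Finset.mem_image_of_mem _ hx, rfl⟩

/-- compactness of the space of colourings -/
theorem compact_form {ι : Type} (act : ι → ℚ → ℚ) (d k : ℕ) (B : Finset ℚ)
    (h : ∀ c : ℚ → Fin k, ∃ s, (B.image fun x => c (act s x)).card ≤ d) :
    ∃ C : Finset ℚ, ∀ c : ℚ → Fin k, ∃ s, (∀ x ∈ B, act s x ∈ C) ∧ (B.image fun x => c (act s x)).card ≤ d := by
  classical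
  let V : ι → Set (ℚ → Fin k) := fun σ => {c | (B.image fun x => c (act σ x)).card ≤ d}
  have hV : ∀ σ, IsOpen (V σ) := fun σ => by
    have h1 : Continuous (fun c : ℚ → Fin k => fun b : B => c (act σ b)) := by fun_prop
    have h2 := (isOpen_discrete {f : B → Fin k | (Finset.univ.image f).card ≤ d}).preimage h1
    convert h2 using 1
    ext c
    simp only [V, Set.mem_ofPred_eq, Set.mem_preimage]
    have h3 : (B.image fun x => c (act σ x)) = Finset.univ.image (fun b : B => c (act σ b)) := by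
      ext y
      simp
    rw [h3]
  obtain ⟨T, hT⟩ := (isCompact_univ : IsCompact (Set.univ : Set (ℚ → Fin k))).elim_finite_subcover V hV
    (fun c _ => by
      obtain ⟨σ, hσ⟩ := h c
      exact Set.mem_iUnion.2 ⟨σ, hσ⟩)
  refine ⟨T.biUnion fun σ => B.image (act σ), fun c => ?_⟩
  have h1 := hT (Set.mem_univ c)
  simp only [Set.mem_iUnion] at h1
  obtain ⟨σ, hσ, h1⟩ := h1
  exact ⟨σ, fun x hx => Finset.mem_biUnion.2 ⟨σ, hσ, Finset.mem_image_of_mem _ hx⟩, h1⟩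

/-- Reduction of Q1, for finite relational languages with arities at most `r`, to colourings of the points of
transitive ultrahomogeneous structures on `ℚ` without algebraicity whose language contains the order, and to the
structures `(ℚ, <, χ)`, `χ` a colouring of the subsets of `ℚ` with at most `r` elements. -/
theorem result (r : ℕ) (hr : 2 ≤ r) : List.TFAE [
    ∀ L : FirstOrder.Language.{0,0}, FinRel r L → ∀ (M : Type) (_ : L.Structure M), Countable M →
      L.IsUltrahomogeneous M → RamseyExp Set.univ L M,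
    ∀ L : FirstOrder.Language.{0,0}, FinRel r L → ∀ (_ : L.Structure ℚ), Nice L → RamseyExp {1} L ℚ,
    ∀ L : FirstOrder.Language.{0,0}, FinRel r L → ∀ (_ : L.Structure ℚ), Nice L →
      ∃ d : ℕ, ∀ (k : ℕ) (c : ℚ → Fin k) (B : Finset ℚ),
        ∃ σ : ℚ ≃[L] ℚ, (B.image fun x => c (σ x)).card ≤ d,
    ∀ L : FirstOrder.Language.{0,0}, FinRel r L → ∀ (_ : L.Structure ℚ), Nice L →
      ∃ d : ℕ, ∀ (k : ℕ) (B : Finset ℚ), ∃ C : Finset ℚ, ∀ c : ℚ → Fin k,
        ∃ σ : ℚ ≃[L] ℚ, (∀ x ∈ B, σ x ∈ C) ∧ (B.image fun x => c (σ x)).card ≤ d,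
    ∀ (m : ℕ) (χ : Finset ℚ → Fin m), NiceCol r χ →
      ∃ d : ℕ, ∀ (k : ℕ) (c : ℚ → Fin k) (B : Finset ℚ),
        ∃ σ ∈ AutC r χ, (B.image fun x => c (σ x)).card ≤ d,
    ∀ (m : ℕ) (χ : Finset ℚ → Fin m), NiceCol r χ →
      ∃ d : ℕ, ∀ (k : ℕ) (B : Finset ℚ), ∃ C : Finset ℚ, ∀ c : ℚ → Fin k,
        ∃ σ ∈ AutC r χ, (∀ x ∈ B, σ x ∈ C) ∧ (B.image fun x => c (σ x)).card ≤ d] := by
  tfae_have 1 → 2 := by
    intro h L hL _ hN
    obtain ⟨L', h1, φ, st, h2, h3, h4, h5⟩ := h L hL ℚ _ inferInstance hN.hom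
    exact ⟨L', h1, φ, st, h2, h3, fun n _ => h4 n trivial, h5⟩
  tfae_have 2 → 3 := by
    intro h L hL _ hN
    obtain ⟨L', h1, φ, st, h2, h3, h4, h5⟩ := h L hL _ hN
    obtain ⟨F, hF⟩ := h4 1 rfl
    classical
    refine ⟨(F.image fun y => y 0).card, fun k c B =>
      Pool.Agent.Lib.PRX.vertex_of_point h1 φ h2 h3 h5 (F.image fun y => y 0) (fun x => ?_) k c B⟩
    obtain ⟨y, hy, σ, hσ⟩ := hF (fun _ => x)
    exact ⟨y 0, Finset.mem_image_of_mem _ hy, σ, hσ 0⟩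
  tfae_have 3 → 4 := by
    intro h L hL _ hN
    obtain ⟨d, hd⟩ := h L hL _ hN
    refine ⟨d, fun k B => ?_⟩
    obtain ⟨C, hC⟩ := compact_form (fun (σ : ℚ ≃[L] ℚ) x => σ x) d k B (fun c => hd k c B)
    exact ⟨C, hC⟩
  tfae_have 4 → 5 := by
    intro h m χ hχ
    let _ := Pool.Agent.Lib.PRX.strK r χ
    obtain ⟨d, hd⟩ := h (Pool.Agent.Lib.PRX.LK r m)
      ⟨Pool.Agent.Lib.PRX.LK_rel, Pool.Agent.Lib.PRX.LK_fin, Pool.Agent.Lib.PRX.LK_ar hr⟩ _
      (Pool.Agent.Lib.PRX.nice_LK hχ)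
    refine ⟨d, fun k c B => ?_⟩
    obtain ⟨C, hC⟩ := hd k B
    obtain ⟨τ, -, hτ⟩ := hC c
    obtain ⟨σ, hσ, h1⟩ := Pool.Agent.Lib.PRX.ofLK τ
    refine ⟨σ, hσ, ?_⟩
    simp only [h1]
    exact hτ
  tfae_have 5 → 6 := by
    intro h m χ hχ
    obtain ⟨d, hd⟩ := h m χ hχ
    refine ⟨d, fun k B => ?_⟩
    obtain ⟨C, hC⟩ := compact_form (fun (σ : AutC r χ) x => σ.1 x) d k B (fun c => by
      obtain ⟨σ, hσ, h1⟩ := hd k c B
      exact ⟨⟨σ, hσ⟩, h1⟩)
    refine ⟨C, fun c => ?_⟩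
    obtain ⟨σ, h1⟩ := hC c
    exact ⟨σ.1, σ.2, h1⟩
  tfae_have 6 → 1 := by
    intro h L hL M _ _ hM
    obtain ⟨L', h1, φ, st, h2, h3, h4, h5⟩ := Pool.Agent.Lib.PRX.exists_expansion hL.rel (M := M) fun n =>
      Pool.Agent.Lib.PRX.deg_tuples hL.rel hL.fin hM n fun a => deg_of_nice hr (fun L hL _ hN => by
        obtain ⟨m, χ, hχ, h1⟩ := Pool.Agent.Lib.PRX.exists_col hL.rel hL.fin (r := r) hL.ar hN
        obtain ⟨d, hd⟩ := h m χ hχ
        refine ⟨d, fun k c B => ?_⟩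
        obtain ⟨C, hC⟩ := hd k B
        obtain ⟨σ, hσ, -, h2⟩ := hC c
        obtain ⟨τ, hτ⟩ := h1 σ hσ
        refine ⟨τ, ?_⟩
        simp only [hτ]
        exact h2) hL hM a
    exact ⟨L', h1, φ, st, h2, h3, fun n _ => h4 n, h5⟩
  tfae_finish

end Pool.Agent.Results.MP_af4c61_co.VertexForm
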